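import Mathlib

/-!
# MP_ffcab7_co: an augmentation of a circle packing that is not sphere packable
-/

set_option autoImplicit false

open Metric
open scoped RealInnerProductSpace

namespace Pool.Agent.Results.MP_ffcab7_co.ApexCounterexample

/-- The closed balls with centres `c v` and radii `r v > 0` of `ℝ^d` form a packing with tangency
graph `G`: their interiors are pairwise disjoint, and two different balls are tangent (have a common
point) exactly when the vertices are adjacent. -/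
structure IsBallPacking {V : Type} {d : ℕ} (G : SimpleGraph V)
    (c : V → EuclideanSpace ℝ (Fin d)) (r : V → ℝ) : Prop where
  pos : ∀ v, 0 < r v
  disj : ∀ u v, u ≠ v →
    Disjoint (interior (closedBall (c u) (r u))) (interior (closedBall (c v) (r v)))
  tangent : ∀ u v, u ≠ v →
    (G.Adj u v ↔ (closedBall (c u) (r u) ∩ closedBall (c v) (r v)).Nonempty)

/-- A height function on `G`. -/
def IsHeight {V : Type} (G : SimpleGraph V) (f : V → ℤ) : Prop :=
  ∀ u v, G.Adj u v → |f u - f v| ≤ 1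

/-- `a` chooses, for every vertex `v` for which some vertex has smaller height, a vertex of smaller
height whose centre is nearest to the centre of `v`. -/
def IsNearestChoice {V : Type} (c : V → EuclideanSpace ℝ (Fin 2)) (f : V → ℤ) (a : V → V) : Prop :=
  ∀ v, (∃ u, f u < f v) →
    f (a v) < f v ∧ ∀ u, f u < f v → dist (c (a v)) (c v) ≤ dist (c u) (c v)

/-- The augmented graph: the edges of `G`, and the edges joining `v` to `a v` for all `v` for which
some vertex has smaller height. -/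
def augmented {V : Type} (G : SimpleGraph V) (f : V → ℤ) (a : V → V) : SimpleGraph V where
  Adj x z := x ≠ z ∧ (G.Adj x z ∨ ((∃ u, f u < f x) ∧ a x = z) ∨ ((∃ u, f u < f z) ∧ a z = x))
  symm := by
    constructor
    rintro x z ⟨h, h1 | h1 | h1⟩
    · exact ⟨h.symm, Or.inl h1.symm⟩
    · exact ⟨h.symm, Or.inr (Or.inr h1)⟩
    · exact ⟨h.symm, Or.inr (Or.inl h1)⟩
  loopless := ⟨fun x h => h.1 rfl⟩

section basic

variable {V : Type} {d : ℕ} {G : SimpleGraph V} {c : V → EuclideanSpace ℝ (Fin d)} {r : V → ℝ}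

lemma IsBallPacking.le_dist (h : IsBallPacking G c r) {u v : V} (huv : u ≠ v) :
    r u + r v ≤ dist (c u) (c v) := by
  have h1 := h.disj u v huv
  rw [interior_closedBall _ (h.pos u).ne', interior_closedBall _ (h.pos v).ne'] at h1
  exact (disjoint_ball_ball_iff (h.pos u) (h.pos v)).mp h1

lemma IsBallPacking.dist_eq (h : IsBallPacking G c r) {u v : V} (huv : G.Adj u v) :
    dist (c u) (c v) = r u + r v := by
  refine le_antisymm ?_ (h.le_dist huv.ne)
  have h1 := (h.tangent u v huv.ne).mp huv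
  by_contra hcon
  rw [not_le] at hcon
  have := (disjoint_closedBall_closedBall_iff (h.pos u).le (h.pos v).le).mpr hcon
  exact Set.not_disjoint_iff_nonempty_inter.mpr h1 this

lemma isBallPacking_of (hpos : ∀ v, 0 < r v)
    (h1 : ∀ u v, u ≠ v → r u + r v ≤ dist (c u) (c v))
    (h2 : ∀ u v, u ≠ v → (G.Adj u v ↔ dist (c u) (c v) ≤ r u + r v)) : IsBallPacking G c r where
  pos := hpos
  disj u v huv := by
    rw [interior_closedBall _ (hpos u).ne', interior_closedBall _ (hpos v).ne']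
    exact (disjoint_ball_ball_iff (hpos u) (hpos v)).mpr (h1 u v huv)
  tangent u v huv := by
    rw [h2 u v huv, ← Set.not_disjoint_iff_nonempty_inter,
      disjoint_closedBall_closedBall_iff (hpos u).le (hpos v).le, not_lt]

end basic

/-! ### At most `9261` balls are tangent to three mutually tangent balls -/

/-- law of cosines for two balls seen from a point -/
lemma inner_unit {E : Type*} [NormedAddCommGroup E] [InnerProductSpace ℝ E] {p a b : E}
    {ρ α β : ℝ} (hρ : 0 < ρ) (hα : 0 < α) (hβ : 0 < β) (h1 : dist p a = ρ + α)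
    (h2 : dist p b = ρ + β) :
    ⟪(ρ + α)⁻¹ • (a - p), (ρ + β)⁻¹ • (b - p)⟫ =
      ((ρ + α) ^ 2 + (ρ + β) ^ 2 - dist a b ^ 2) / (2 * (ρ + α) * (ρ + β)) := by
  have h3 : ‖a - p‖ = ρ + α := by rw [← h1, dist_comm, dist_eq_norm]
  have h4 : ‖b - p‖ = ρ + β := by rw [← h2, dist_comm, dist_eq_norm]
  have h5 : dist a b ^ 2 = ‖a - p‖ ^ 2 - 2 * ⟪a - p, b - p⟫ + ‖b - p‖ ^ 2 := by
    rw [dist_eq_norm, ← norm_sub_sq_real]
    congr 2
    abel
  rw [inner_smul_left, inner_smul_right, h5, h3, h4]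
  simp only [conj_trivial]
  have : ρ + α ≠ 0 := by positivity
  have : ρ + β ≠ 0 := by positivity
  field_simp
  ring

lemma radius_ge {E : Type*} [NormedAddCommGroup E] [InnerProductSpace ℝ E] {p : E}
    {a : Fin 3 → E} {ρ : ℝ} {α : Fin 3 → ℝ} {δ : ℝ} (hρ : 0 < ρ) (hδ : 0 < δ)
    (hα : ∀ j, δ ≤ α j)
    (h1 : ∀ j, dist p (a j) = ρ + α j) (h2 : ∀ j k, j ≠ k → dist (a j) (a k) = α j + α k) :
    δ / 10 ≤ ρ := by
  by_contra hcon
  rw [not_le] at hcon
  have hα0 : ∀ j, 0 < α j := fun j => hδ.trans_le (hα j)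
  set e : Fin 3 → E := fun j => (ρ + α j)⁻¹ • (a j - p) with he
  have hx : ∀ j, 10 / 11 < α j / (ρ + α j) := fun j => by
    rw [div_lt_div_iff₀ (by norm_num) (by linarith [hα0 j])]
    nlinarith [hα j, hα0 j]
  have hin : ∀ j k, j ≠ k → ⟪e j, e k⟫ < - 1 / 2 := fun j k hjk => by
    simp only [he]
    rw [inner_unit hρ (hα0 j) (hα0 k) (h1 j) (h1 k), h2 j k hjk]
    have h3 := hα0 j
    have h4 := hα0 k
    have h5 : ((ρ + α j) ^ 2 + (ρ + α k) ^ 2 - (α j + α k) ^ 2) / (2 * (ρ + α j) * (ρ + α k)) =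
        1 - 2 * (α j / (ρ + α j)) * (α k / (ρ + α k)) := by
      have : ρ + α j ≠ 0 := by positivity
      have : ρ + α k ≠ 0 := by positivity
      field_simp
      ring
    rw [h5]
    have h6 := hx j
    have h7 := hx k
    nlinarith [mul_lt_mul'' h6 h7 (by norm_num) (by norm_num)]
  have hself : ∀ j, ⟪e j, e j⟫ = 1 := fun j => by
    simp only [he]
    rw [inner_unit hρ (hα0 j) (hα0 j) (h1 j) (h1 j), dist_self]
    have : ρ + α j ≠ 0 := by linarith [hα0 j]
    field_simp
    ring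
  have hsum : 0 ≤ ⟪e 0 + e 1 + e 2, e 0 + e 1 + e 2⟫ := real_inner_self_nonneg
  simp only [inner_add_left, inner_add_right, hself] at hsum
  have h01 := hin 0 1 (by decide)
  have h02 := hin 0 2 (by decide)
  have h12 := hin 1 2 (by decide)
  have h10 := hin 1 0 (by decide)
  have h20 := hin 2 0 (by decide)
  have h21 := hin 2 1 (by decide)
  linarith

lemma no_packing {m : ℕ} (hm : 9262 ≤ m) (c : Fin 3 ⊕ Fin m → EuclideanSpace ℝ (Fin 3))
    (r : Fin 3 ⊕ Fin m → ℝ) (hpos : ∀ v, 0 < r v)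
    (hle : ∀ u v, u ≠ v → r u + r v ≤ dist (c u) (c v))
    (h3 : ∀ i j : Fin 3, i ≠ j → dist (c (Sum.inl i)) (c (Sum.inl j)) =
      r (Sum.inl i) + r (Sum.inl j))
    (hw : ∀ (i : Fin 3) (j : Fin m), dist (c (Sum.inr j)) (c (Sum.inl i)) =
      r (Sum.inr j) + r (Sum.inl i)) : False := by
  obtain ⟨i0, hi0⟩ : ∃ i0 : Fin 3, ∀ i, r (Sum.inl i0) ≤ r (Sum.inl i) := by
    obtain ⟨i0, -, h⟩ := Finset.exists_min_image Finset.univ (fun i : Fin 3 => r (Sum.inl i))
      ⟨0, Finset.mem_univ _⟩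
    exact ⟨i0, fun i => h i (Finset.mem_univ _)⟩
  set α : ℝ := r (Sum.inl i0) with hα
  set a : EuclideanSpace ℝ (Fin 3) := c (Sum.inl i0) with ha
  have hα0 : 0 < α := hpos _
  have hρ : ∀ j : Fin m, α / 10 ≤ r (Sum.inr j) := fun j =>
    radius_ge (a := fun i => c (Sum.inl i)) (α := fun i => r (Sum.inl i)) (hpos _) hα0 hi0
      (fun i => hw i j) h3
  -- unit vectors from `a` to the centres
  set n : Fin m → EuclideanSpace ℝ (Fin 3) :=
    fun j => (α + r (Sum.inr j))⁻¹ • (c (Sum.inr j) - a) with hn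
  have hda : ∀ j, dist a (c (Sum.inr j)) = α + r (Sum.inr j) := fun j => by
    rw [dist_comm, hw i0 j, add_comm]
  have hn1 : ∀ j, ‖n j‖ = 1 := fun j => by
    simp only [hn]
    rw [norm_smul, ← dist_eq_norm, dist_comm, hda, Real.norm_eq_abs, abs_inv,
      abs_of_pos (by linarith [hpos (Sum.inr j : Fin 3 ⊕ Fin m)]),
      inv_mul_cancel₀ (by linarith [hpos (Sum.inr j : Fin 3 ⊕ Fin m)])]
  have hsep : ∀ j k, j ≠ k → ⟪n j, n k⟫ ≤ 1 - 2 / 121 := fun j k hjk => by
    simp only [hn]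
    have hj := hpos (Sum.inr j : Fin 3 ⊕ Fin m)
    have hk := hpos (Sum.inr k : Fin 3 ⊕ Fin m)
    rw [inner_unit hα0 hj hk (hda j) (hda k)]
    have h4 := hle (Sum.inr j) (Sum.inr k) (by simpa using hjk)
    have h5 : (r (Sum.inr j) + r (Sum.inr k)) ^ 2 ≤ dist (c (Sum.inr j)) (c (Sum.inr k)) ^ 2 := by
      gcongr
    have h6 : 1 / 11 ≤ r (Sum.inr j) / (α + r (Sum.inr j)) := by
      rw [div_le_div_iff₀ (by norm_num) (by linarith)]
      linarith [hρ j]
    have h7 : 1 / 11 ≤ r (Sum.inr k) / (α + r (Sum.inr k)) := by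
      rw [div_le_div_iff₀ (by norm_num) (by linarith)]
      linarith [hρ k]
    calc ((α + r (Sum.inr j)) ^ 2 + (α + r (Sum.inr k)) ^ 2
            - dist (c (Sum.inr j)) (c (Sum.inr k)) ^ 2) /
          (2 * (α + r (Sum.inr j)) * (α + r (Sum.inr k)))
        ≤ ((α + r (Sum.inr j)) ^ 2 + (α + r (Sum.inr k)) ^ 2
            - (r (Sum.inr j) + r (Sum.inr k)) ^ 2) /
          (2 * (α + r (Sum.inr j)) * (α + r (Sum.inr k))) := by
          gcongr
      _ = 1 - 2 * ((r (Sum.inr j) / (α + r (Sum.inr j))) *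
            (r (Sum.inr k) / (α + r (Sum.inr k)))) := by
          have : α + r (Sum.inr j) ≠ 0 := by positivity
          have : α + r (Sum.inr k) ≠ 0 := by positivity
          field_simp
          ring
      _ ≤ 1 - 2 / 121 := by
          have := mul_le_mul h6 h7 (by norm_num) (by linarith)
          linarith
  -- pigeonhole
  have hcoord : ∀ j i, |n j i| ≤ 1 := fun j i => by
    have := PiLp.norm_apply_le (n j) i
    rwa [hn1 j, Real.norm_eq_abs] at this
  set cell : Fin m → (Fin 3 → Fin 21) := fun j i =>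
    ⟨(⌊10 * n j i⌋ + 10).toNat, by
      have h8 := abs_le.mp (hcoord j i)
      have h9 : ⌊10 * n j i⌋ < 11 := by
        rw [Int.floor_lt]
        push_cast
        linarith [h8.2]
      have h10 : -10 ≤ ⌊10 * n j i⌋ := by
        rw [Int.le_floor]
        push_cast
        linarith [h8.1]
      omega⟩ with hcell
  obtain ⟨j, k, hjk, hjk'⟩ : ∃ j k, j ≠ k ∧ cell j = cell k := by
    apply Fintype.exists_ne_map_eq_of_card_lt
    simp only [Fintype.card_fun, Fintype.card_fin]
    omega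
  have hclose : ∀ i, |n j i - n k i| < 1 / 10 := fun i => by
    have h8 := congrArg Fin.val (congrFun hjk' i)
    simp only [hcell] at h8
    have h9 : -10 ≤ ⌊10 * n j i⌋ := by
      rw [Int.le_floor]
      push_cast
      linarith [(abs_le.mp (hcoord j i)).1]
    have h10 : -10 ≤ ⌊10 * n k i⌋ := by
      rw [Int.le_floor]
      push_cast
      linarith [(abs_le.mp (hcoord k i)).1]
    have h11 : ⌊10 * n j i⌋ = ⌊10 * n k i⌋ := by omega
    have h12 := Int.abs_sub_lt_one_of_floor_eq_floor h11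
    rw [← mul_sub, abs_mul, abs_of_pos (by norm_num : (0 : ℝ) < 10)] at h12
    linarith
  have h13 : ‖n j - n k‖ ^ 2 = 2 - 2 * ⟪n j, n k⟫ := by
    rw [norm_sub_sq_real, hn1, hn1]
    ring
  have h14 : ‖n j - n k‖ ^ 2 < 3 / 100 := by
    rw [EuclideanSpace.norm_sq_eq]
    simp only [PiLp.sub_apply, Real.norm_eq_abs, sq_abs]
    rw [Fin.sum_univ_three]
    have h15 : ∀ i, (n j i - n k i) ^ 2 < 1 / 100 := fun i => by
      have h16 := abs_lt.mp (hclose i)
      nlinarith [h16.1, h16.2]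
    linarith [h15 0, h15 1, h15 2]
  linarith [hsep j k hjk]

/-! ### The planar graph and its circle packing -/

/-- Number of common neighbours. -/
def m₀ : ℕ := 9262

/-- The graph: the two adjacent vertices `inl 1`, `inl 2` are joined to all `inr i`, the vertex
`inl 0` is isolated. -/
def G₀ : SimpleGraph (Fin 3 ⊕ Fin m₀) where
  Adj x z := match x, z with
    | Sum.inl i, Sum.inl j => i ≠ 0 ∧ j ≠ 0 ∧ i ≠ j
    | Sum.inl i, Sum.inr _ => i ≠ 0
    | Sum.inr _, Sum.inl j => j ≠ 0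
    | Sum.inr _, Sum.inr _ => False
  symm := by
    constructor
    rintro (i | i) (j | j) h
    · exact ⟨h.2.1, h.1, h.2.2.symm⟩
    · exact h
    · exact h
    · exact h
  loopless := by
    constructor
    rintro (i | i) h
    · exact h.2.2 rfl
    · exact h

/-- The heights: `0` at the isolated vertex, `1` elsewhere. -/
def f₀ : Fin 3 ⊕ Fin m₀ → ℤ
  | Sum.inl i => if i = 0 then 0 else 1
  | Sum.inr _ => 1

/-- `H = 3 (i + 1)` -/
noncomputable def Hh (i : Fin m₀) : ℝ := 3 * ((i : ℕ) + 1)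

/-- centres -/
noncomputable def c₀ : Fin 3 ⊕ Fin m₀ → EuclideanSpace ℝ (Fin 2)
  | Sum.inl i => if i = 0 then !₂[0, -10] else if i = 1 then !₂[-1, 0] else !₂[1, 0]
  | Sum.inr i => !₂[0, 2 * Hh i / (Hh i ^ 2 - 1)]

/-- radii -/
noncomputable def r₀ : Fin 3 ⊕ Fin m₀ → ℝ
  | Sum.inl _ => 1
  | Sum.inr i => 2 / (Hh i ^ 2 - 1)

lemma Hh_ge (i : Fin m₀) : 3 ≤ Hh i := by
  unfold Hh
  have : (0 : ℝ) ≤ (i : ℕ) := Nat.cast_nonneg _
  linarith

lemma Hh_lt {i j : Fin m₀} (h : i < j) : Hh i + 3 ≤ Hh j := by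
  unfold Hh
  have h1 : ((i : ℕ) : ℝ) + 1 ≤ (j : ℕ) := by exact_mod_cast h
  linarith

lemma dist_w {i j : Fin m₀} (h : i < j) :
    r₀ (Sum.inr i) + r₀ (Sum.inr j) < dist (c₀ (Sum.inr i)) (c₀ (Sum.inr j)) := by
  have h1 := Hh_ge i
  have h2 := Hh_ge j
  have h3 := Hh_lt h
  have h4 : dist (c₀ (Sum.inr i)) (c₀ (Sum.inr j)) =
      |2 * Hh i / (Hh i ^ 2 - 1) - 2 * Hh j / (Hh j ^ 2 - 1)| := by
    rw [EuclideanSpace.dist_eq]
    simp [c₀, Fin.sum_univ_two, Real.dist_eq, Real.sqrt_sq_eq_abs]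
  rw [h4]
  refine lt_of_lt_of_le ?_ (le_abs_self _)
  simp only [r₀]
  have h5 : 0 < Hh i ^ 2 - 1 := by nlinarith
  have h6 : 0 < Hh j ^ 2 - 1 := by nlinarith
  have h7 : 2 * Hh i / (Hh i ^ 2 - 1) - 2 / (Hh i ^ 2 - 1) = 2 / (Hh i + 1) := by
    have : Hh i + 1 ≠ 0 := by linarith
    have := h5.ne'
    field_simp
    ring
  have h8 : 2 * Hh j / (Hh j ^ 2 - 1) + 2 / (Hh j ^ 2 - 1) = 2 / (Hh j - 1) := by
    have : Hh j - 1 ≠ 0 := by linarith
    have := h6.ne'
    field_simp
    ring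
  have h9 : 2 / (Hh j - 1) < 2 / (Hh i + 1) := by
    apply div_lt_div_of_pos_left <;> linarith
  linarith

lemma dist_uw (i : Fin m₀) (s : ℝ) (hs : s ^ 2 = 1) (p : EuclideanSpace ℝ (Fin 2))
    (hp : p = !₂[s, 0]) : dist p (c₀ (Sum.inr i)) = 1 + r₀ (Sum.inr i) := by
  have h1 := Hh_ge i
  have h5 : 0 < Hh i ^ 2 - 1 := by nlinarith
  rw [EuclideanSpace.dist_eq, hp]
  simp only [c₀, r₀, Fin.sum_univ_two, Real.dist_eq, sq_abs]
  rw [Real.sqrt_eq_iff_mul_self_eq (by positivity) (by positivity)]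
  have : (!₂[s, (0 : ℝ)] : EuclideanSpace ℝ (Fin 2)) 0 = s := rfl
  simp only [Fin.isValue, Matrix.cons_val_zero, Matrix.cons_val_one, sub_zero, hs]
  have := h5.ne'
  field_simp
  ring

theorem packing₀ : IsBallPacking G₀ c₀ r₀ := by
  have hpos : ∀ v, 0 < r₀ v := by
    rintro (i | i)
    · exact one_pos
    · simp only [r₀]
      have h1 := Hh_ge i
      have : 0 < Hh i ^ 2 - 1 := by nlinarith
      positivity
  have hh : ∀ i, 0 < 2 * Hh i / (Hh i ^ 2 - 1) := fun i => by
    have h1 := Hh_ge i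
    have : 0 < Hh i ^ 2 - 1 := by nlinarith
    positivity
  -- it suffices to compute the distances
  have key : ∀ u v, u ≠ v → (G₀.Adj u v ∧ dist (c₀ u) (c₀ v) = r₀ u + r₀ v) ∨
      (¬ G₀.Adj u v ∧ r₀ u + r₀ v < dist (c₀ u) (c₀ v)) := by
    have h12 : dist (c₀ (Sum.inl 1)) (c₀ (Sum.inl 2)) = r₀ (Sum.inl 1) + r₀ (Sum.inl 2) := by
      rw [EuclideanSpace.dist_eq]
      simp only [c₀, r₀, Fin.sum_univ_two, Real.dist_eq, sq_abs]
      rw [Real.sqrt_eq_iff_mul_self_eq (by positivity) (by positivity)]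
      simp
      norm_num
    have h01 : r₀ (Sum.inl 0) + r₀ (Sum.inl 1) < dist (c₀ (Sum.inl 0)) (c₀ (Sum.inl 1)) := by
      rw [EuclideanSpace.dist_eq]
      simp only [c₀, r₀, Fin.sum_univ_two, Real.dist_eq, sq_abs]
      apply Real.lt_sqrt_of_sq_lt
      simp
      norm_num
    have h02 : r₀ (Sum.inl 0) + r₀ (Sum.inl 2) < dist (c₀ (Sum.inl 0)) (c₀ (Sum.inl 2)) := by
      rw [EuclideanSpace.dist_eq]
      simp only [c₀, r₀, Fin.sum_univ_two, Real.dist_eq, sq_abs]
      apply Real.lt_sqrt_of_sq_lt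
      simp
      norm_num
    have h0w : ∀ j, r₀ (Sum.inl 0) + r₀ (Sum.inr j) < dist (c₀ (Sum.inl 0)) (c₀ (Sum.inr j)) := by
      intro j
      have h1 := Hh_ge j
      have h5 : 0 < Hh j ^ 2 - 1 := by nlinarith
      have h6 : r₀ (Sum.inr j) ≤ 1 := by
        simp only [r₀]
        rw [div_le_one h5]
        nlinarith
      have h7 := hh j
      rw [EuclideanSpace.dist_eq]
      simp only [c₀, Fin.sum_univ_two, Real.dist_eq, sq_abs]
      apply Real.lt_sqrt_of_sq_lt
      have h8 := hpos (Sum.inr j)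
      simp only [r₀] at h6 h8 ⊢
      simp
      generalize 2 * Hh j / (Hh j ^ 2 - 1) = x at h7 ⊢
      generalize 2 / (Hh j ^ 2 - 1) = y at h6 h8 ⊢
      nlinarith
    have h1w : ∀ j, dist (c₀ (Sum.inl 1)) (c₀ (Sum.inr j)) = r₀ (Sum.inl 1) + r₀ (Sum.inr j) :=
      fun j => dist_uw j (-1) (by norm_num) _ (by simp [c₀])
    have h2w : ∀ j, dist (c₀ (Sum.inl 2)) (c₀ (Sum.inr j)) = r₀ (Sum.inl 2) + r₀ (Sum.inr j) :=
      fun j => dist_uw j 1 (by norm_num) _ (by simp [c₀])
    rintro (i | i) (j | j) hij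
    · fin_cases i <;> fin_cases j
      · exact absurd rfl hij
      · exact Or.inr ⟨fun h => h.1 rfl, h01⟩
      · exact Or.inr ⟨fun h => h.1 rfl, h02⟩
      · exact Or.inr ⟨fun h => h.2.1 rfl, by rw [dist_comm, add_comm]; exact h01⟩
      · exact absurd rfl hij
      · exact Or.inl ⟨⟨by decide, by decide, by decide⟩, h12⟩
      · exact Or.inr ⟨fun h => h.2.1 rfl, by rw [dist_comm, add_comm]; exact h02⟩
      · exact Or.inl ⟨⟨by decide, by decide, by decide⟩, by rw [dist_comm, add_comm]; exact h12⟩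
      · exact absurd rfl hij
    · fin_cases i
      · exact Or.inr ⟨fun h => h rfl, h0w j⟩
      · exact Or.inl ⟨(by decide : (1 : Fin 3) ≠ 0), h1w j⟩
      · exact Or.inl ⟨(by decide : (2 : Fin 3) ≠ 0), h2w j⟩
    · fin_cases j
      · exact Or.inr ⟨fun h => h rfl, by rw [dist_comm, add_comm]; exact h0w i⟩
      · exact Or.inl ⟨(by decide : (1 : Fin 3) ≠ 0), by rw [dist_comm, add_comm]; exact h1w i⟩
      · exact Or.inl ⟨(by decide : (2 : Fin 3) ≠ 0), by rw [dist_comm, add_comm]; exact h2w i⟩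
    · have hij' : i ≠ j := fun h => hij (by rw [h])
      refine Or.inr ⟨fun h => h, ?_⟩
      rcases lt_or_gt_of_ne hij' with h | h
      · exact dist_w h
      · rw [dist_comm, add_comm]
        exact dist_w h
  refine isBallPacking_of hpos (fun u v huv => ?_) (fun u v huv => ?_)
  · rcases key u v huv with h | h
    · exact h.2.ge
    · exact h.2.le
  · rcases key u v huv with h | h
    · exact ⟨fun _ => h.2.le, fun _ => h.1⟩
    · exact ⟨fun h' => absurd h' h.1, fun h' => absurd h.2 (not_lt.mpr h')⟩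

/-- There are a finite graph `G` that has a circle packing in the plane (so `G` is planar) and a
height function `f` on `G` such that for every circle packing of `G` and every choice of nearest
lower vertices the augmented graph is not sphere packable in `ℝ³`. -/
theorem result :
    ∃ (V : Type) (_ : Fintype V) (G : SimpleGraph V) (f : V → ℤ), IsHeight G f ∧
      (∃ (c : V → EuclideanSpace ℝ (Fin 2)) (r : V → ℝ) (a : V → V),
        IsBallPacking G c r ∧ IsNearestChoice c f a) ∧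
      ∀ (c : V → EuclideanSpace ℝ (Fin 2)) (r : V → ℝ), IsBallPacking G c r →
        ∀ a : V → V, IsNearestChoice c f a →
          ¬ ∃ (c' : V → EuclideanSpace ℝ (Fin 3)) (r' : V → ℝ),
            IsBallPacking (augmented G f a) c' r' := by
  have hlow : ∀ u v : Fin 3 ⊕ Fin m₀, f₀ u < f₀ v → u = Sum.inl 0 := by
    rintro (i | i) (j | j) h
    · simp only [f₀] at h
      split_ifs at h with h1 h2 h2
      · omega
      · rw [h1]
      · omega
      · omega
    · simp only [f₀] at h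
      split_ifs at h with h1
      · rw [h1]
      · omega
    · simp only [f₀] at h
      split_ifs at h <;> omega
    · simp [f₀] at h
  have h0lt : ∀ v : Fin 3 ⊕ Fin m₀, v ≠ Sum.inl 0 → f₀ (Sum.inl 0) < f₀ v := by
    rintro (i | i) h
    · have : i ≠ 0 := fun h' => h (by rw [h'])
      simp [f₀, this]
    · simp [f₀]
  refine ⟨Fin 3 ⊕ Fin m₀, inferInstance, G₀, f₀, ?_, ⟨c₀, r₀, fun _ => Sum.inl 0, packing₀, ?_⟩, ?_⟩
  · rintro (i | i) (j | j) h
    · obtain ⟨h1, h2, -⟩ := h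
      simp [f₀, h1, h2]
    · have h1 : i ≠ 0 := h
      simp [f₀, h1]
    · have h1 : j ≠ 0 := h
      simp [f₀, h1]
    · exact absurd h id
  · rintro v ⟨u, hu⟩
    have h1 := hlow u v hu
    refine ⟨by rw [← h1]; exact hu, fun u' hu' => ?_⟩
    rw [hlow u' v hu']
  · rintro c r hcr a ha ⟨c', r', h⟩
    have hadj : ∀ v, v ≠ Sum.inl 0 → (augmented G₀ f₀ a).Adj (Sum.inl 0) v := by
      intro v hv
      have h1 : ∃ u, f₀ u < f₀ v := ⟨_, h0lt v hv⟩
      have h2 := hlow _ _ (ha v h1).1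
      exact ⟨hv.symm, Or.inr (Or.inr ⟨h1, h2⟩)⟩
    have hG : ∀ u v, G₀.Adj u v → (augmented G₀ f₀ a).Adj u v := fun u v huv =>
      ⟨huv.ne, Or.inl huv⟩
    refine no_packing (m := m₀) le_rfl c' r' h.pos (fun u v huv => h.le_dist huv) ?_ ?_
    · intro i j hij
      apply h.dist_eq
      by_cases hi : i = 0
      · subst hi
        exact hadj _ (by simpa using hij.symm)
      · by_cases hj : j = 0
        · subst hj
          exact (hadj _ (by simpa using hij)).symm
        · exact hG _ _ ⟨hi, hj, hij⟩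
    · intro i j
      apply h.dist_eq
      by_cases hi : i = 0
      · subst hi
        exact (hadj _ (by simp)).symm
      · exact hG _ _ hi

end Pool.Agent.Results.MP_ffcab7_co.ApexCounterexample
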